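import Pool.Agent.J6H67.AK.Fin

/-!
# MP_65f174_lc, question Q2: the transfer principle holds for all standard fragments

Let `(K, v)` and `(L, w)` be henselian valued fields of equal characteristic zero and let `Φ` be a
standard fragment: the prenex sentences with `n` alternating blocks of quantifiers, the last one
existential.  If `Th_Φ(Kv) ⊆ Th_Φ(Lw)` and `Th_Φ(vK) ⊆ Th_Φ(wL)`, then `Th_Φ(K, v) ⊆ Th_Φ(L, w)`.
So the answer to Q2 is yes, for `∀∃` and for each other standard fragment.

The languages, the fragments and truth are defined in `Pool/Agent/J6H67/AK/Syn.lean`.

Proof. In countable ultrapowers an inclusion of the `Φ`-theories becomes a back and forth with `n`
rounds between the residue fields and between the value groups, in which each round extends the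
graph of a partial isomorphism to countably many new elements (`Good.lean`).  The ultrapowers of the
valued fields have cross-sections (`Cross2.lean`), and a partial isomorphism of countable subfields
which is closed under the cross-sections extends to a given countable subfield, algebraically closed
in `K` and closed under the cross-section, as soon as the partial isomorphisms of the residue fields
and of the value groups are given there (`Emb.lean`; the steps are an extension of the value group,
an extension of the residue field by Hensel's lemma, and an immediate extension by the lemmas of
Ostrowski and Kaplansky in residue characteristic zero, which are proved in `Imm.lean`, `Kap.lean`).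
So the two games can be combined to one game with `n` rounds for the valued fields (`Main.lean`).
-/

set_option autoImplicit false

universe u

namespace Pool.Agent.Results.MP_65f174_lc.AllFragmentsTransfer

open Pool.Agent.J6H67.AK

/-- Let `O` and `P` be henselian valuation rings of fields `K` and `L` with residue fields of
characteristic zero.  For every `n`, if every sentence of the language of rings with `n` alternating
blocks of quantifiers, the last one existential, which is true in the residue field of `O` is true in
the residue field of `P`, and every sentence of this form of the language of ordered abelian groups
which is true in the value group of `O` is true in the value group of `P`, then every sentence of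
this form of the three-sorted language of valued fields which is true in `(K, O)` is true in
`(L, P)`. -/
theorem result {K L : Type u} [Field K] [Field L] (O : ValuationSubring K)
    (P : ValuationSubring L) [HenselianLocalRing O] [HenselianLocalRing P]
    [CharZero (IsLocalRing.ResidueField O)] [CharZero (IsLocalRing.ResidueField P)] (n : ℕ)
    (hk : ringTh n (IsLocalRing.ResidueField O) ⊆ ringTh n (IsLocalRing.ResidueField P))
    (hΓ : groupTh n (O.ValueGroup)ˣ ⊆ groupTh n (P.ValueGroup)ˣ) :
    valTh O n ⊆ valTh P n :=
  fragments O P n hk hΓ

end Pool.Agent.Results.MP_65f174_lc.AllFragmentsTransfer
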